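import Pool.Agent.Helper71.SDX.Defs

/-! # SDX, module E: the spectral lemma -/

set_option autoImplicit false

open scoped BigOperators Matrix

namespace SDX

namespace h74

variable {σ ρ : Type} [Fintype σ] [DecidableEq σ] [Fintype ρ] [DecidableEq ρ]

/-- an orthogonal matrix of eigenvectors -/
theorem exists_diag (T : Matrix σ σ ℝ) (hT : T.IsHermitian) :
    ∃ (O : Matrix σ σ ℝ) (l : σ → ℝ), Oᵀ * O = 1 ∧ O * Oᵀ = 1 ∧ T * O = O * Matrix.diagonal l := by
  have h1 := Unitary.coe_star_mul_self hT.eigenvectorUnitary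
  rw [Matrix.star_eq_conjTranspose, Matrix.conjTranspose_eq_transpose_of_trivial] at h1
  refine ⟨(hT.eigenvectorUnitary : Matrix σ σ ℝ), hT.eigenvalues, h1,
    mul_eq_one_comm.mp h1, ?_⟩
  · ext i j
    have h := congrFun (hT.mulVec_eigenvectorBasis j) i
    rw [Matrix.mul_diagonal, Matrix.mul_apply]
    simp only [Matrix.IsHermitian.eigenvectorUnitary_apply]
    simp only [Matrix.mulVec, dotProduct, Pi.smul_apply, smul_eq_mul] at h
    rw [h, mul_comm]

theorem aeval_mul (T O : Matrix σ σ ℝ) (l : σ → ℝ) (hO : T * O = O * Matrix.diagonal l)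
    (h : Polynomial ℝ) :
    Polynomial.aeval T h * O = O * Matrix.diagonal (fun k => h.eval (l k)) := by
  induction h using Polynomial.induction_on' with
  | add p q hp hq =>
    rw [map_add, add_mul, hp, hq, ← mul_add, Matrix.diagonal_add]
    simp
  | monomial n a =>
    have h1 : ∀ n : ℕ, T ^ n * O = O * Matrix.diagonal (fun k => l k ^ n) := by
      intro n
      induction n with
      | zero => simp
      | succ n ih =>
        rw [pow_succ', Matrix.mul_assoc, ih, ← Matrix.mul_assoc, hO, Matrix.mul_assoc,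
          Matrix.diagonal_mul_diagonal]
        simp only [pow_succ']
    rw [Polynomial.aeval_monomial, Matrix.mul_assoc, h1, ← Matrix.mul_assoc]
    ext i j
    rw [Matrix.algebraMap_eq_diagonal, Matrix.mul_diagonal, Matrix.mul_diagonal,
      Matrix.diagonal_mul, Polynomial.eval_monomial]
    simp
    ring

omit [DecidableEq σ] [DecidableEq ρ] in
theorem sum_sq_eq_trace (A : Matrix σ ρ ℝ) : ∑ i, ∑ j, A i j ^ 2 = (Aᵀ * A).trace := by
  rw [Matrix.trace, Finset.sum_comm]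
  refine Finset.sum_congr rfl fun j _ => ?_
  rw [Matrix.diag_apply, Matrix.mul_apply]
  refine Finset.sum_congr rfl fun i _ => ?_
  rw [Matrix.transpose_apply, sq]

/-- the inequality for one eigenvalue -/
theorem one_eig (κ θ H c : ℝ) (hθ : 0 < θ) (hκ : 0 < κ)
    (hH : 0 ≤ H) (hc : 0 < c) (h : Polynomial ℝ)
    (h1 : ∀ l, -κ ≤ l → l ≤ θ → h.eval l ^ 2 ≤ 1) (h2 : ∀ l, 2 * θ ≤ l → H ≤ h.eval l ^ 2)
    (l a q : ℝ) (hl : -κ ≤ l) (ha : 0 ≤ a) (hq : 0 ≤ q) (hqa : q ≤ c * a) :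
    H / (2 * c) * ((l - 2 * θ) * q) - (κ + θ) * a ≤ (l - θ) * h.eval l ^ 2 * a := by
  have hHc : 0 ≤ H / (2 * c) := by positivity
  rcases le_total l θ with hlt | hlt
  · have e1 := h1 l hl hlt
    have e2 : (l - 2 * θ) * q ≤ 0 := mul_nonpos_of_nonpos_of_nonneg (by linarith) hq
    have e3 : H / (2 * c) * ((l - 2 * θ) * q) ≤ 0 := mul_nonpos_of_nonneg_of_nonpos hHc e2
    have e4 : (l - θ) ≤ (l - θ) * h.eval l ^ 2 := by nlinarith
    have e5 : (l - θ) * a ≤ (l - θ) * h.eval l ^ 2 * a := mul_le_mul_of_nonneg_right e4 ha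
    nlinarith
  · rcases le_total l (2 * θ) with hlt2 | hlt2
    · have e2 : (l - 2 * θ) * q ≤ 0 := mul_nonpos_of_nonpos_of_nonneg (by linarith) hq
      have e3 : H / (2 * c) * ((l - 2 * θ) * q) ≤ 0 := mul_nonpos_of_nonneg_of_nonpos hHc e2
      have e4 : 0 ≤ (l - θ) * h.eval l ^ 2 * a :=
        mul_nonneg (mul_nonneg (by linarith) (sq_nonneg _)) ha
      have e5 : 0 ≤ (κ + θ) * a := mul_nonneg (by linarith) ha
      linarith
    · have e1 := h2 l hlt2
      have e2 : (l - 2 * θ) * q ≤ (l - 2 * θ) * (c * a) :=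
        mul_le_mul_of_nonneg_left hqa (by linarith)
      have e3 : H / (2 * c) * ((l - 2 * θ) * q) ≤ H / (2 * c) * ((l - 2 * θ) * (c * a)) :=
        mul_le_mul_of_nonneg_left e2 hHc
      have e4 : H / (2 * c) * ((l - 2 * θ) * (c * a)) = H * ((l - 2 * θ) / 2) * a := by
        field_simp
      have e5 : H * ((l - 2 * θ) / 2) ≤ (l - θ) * h.eval l ^ 2 := by
        calc H * ((l - 2 * θ) / 2) ≤ H * (l - θ) :=
              mul_le_mul_of_nonneg_left (by linarith) hH
          _ = (l - θ) * H := mul_comm _ _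
          _ ≤ (l - θ) * h.eval l ^ 2 := mul_le_mul_of_nonneg_left e1 (by linarith)
      have e6 := mul_le_mul_of_nonneg_right e5 ha
      have e7 : 0 ≤ (κ + θ) * a := mul_nonneg (by linarith) ha
      linarith

end h74

open h74

theorem spectral {σ ρ : Type} [Fintype σ] [DecidableEq σ] [Fintype ρ] [DecidableEq ρ]
    (T : Matrix σ σ ℝ) (hT : T.IsHermitian) (κ θ H c : ℝ)
    (hlow : ∀ v : σ → ℝ, -κ * (v ⬝ᵥ v) ≤ v ⬝ᵥ T *ᵥ v) (hθ : 0 < θ) (hκ : 0 < κ)
    (hH : 0 ≤ H) (hc : 0 < c) (h : Polynomial ℝ)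
    (h1 : ∀ l, -κ ≤ l → l ≤ θ → h.eval l ^ 2 ≤ 1) (h2 : ∀ l, 2 * θ ≤ l → H ≤ h.eval l ^ 2)
    (U : Matrix σ ρ ℝ) (Q : Matrix σ σ ℝ) (hQ : Q.PosSemidef)
    (hQU : ∀ v : σ → ℝ, v ⬝ᵥ Q *ᵥ v ≤ c * ∑ j, (v ᵥ* U) j ^ 2) :
    H / (2 * c) * ((T * Q).trace - 2 * θ * Q.trace) - (κ + θ) * ∑ i, ∑ j, U i j ^ 2
      ≤ (((Polynomial.aeval T h) * U)ᵀ * (T * ((Polynomial.aeval T h) * U))).trace
        - θ * ∑ i, ∑ j, ((Polynomial.aeval T h) * U) i j ^ 2 := by
  obtain ⟨O, l, hO1, hO2, hO⟩ := exists_diag T hT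
  set D := Matrix.diagonal l with hD
  -- the new coordinates
  set U' : Matrix σ ρ ℝ := Oᵀ * U with hU'
  have hU : U = O * U' := by rw [hU', ← Matrix.mul_assoc, hO2, Matrix.one_mul]
  set V : Matrix σ ρ ℝ := Matrix.diagonal (fun k => h.eval (l k)) * U' with hV
  have hAU : Polynomial.aeval T h * U = O * V := by
    rw [hU, ← Matrix.mul_assoc, aeval_mul T O l hO, Matrix.mul_assoc]
  have hVa : ∀ k j, V k j = h.eval (l k) * U' k j := fun k j => by rw [hV, Matrix.diagonal_mul]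
  have hcan : ∀ W : Matrix σ ρ ℝ, (O * V)ᵀ * (O * W) = Vᵀ * W := fun W => by
    rw [Matrix.transpose_mul, Matrix.mul_assoc, ← Matrix.mul_assoc Oᵀ, hO1, Matrix.one_mul]
  have t1 : (((Polynomial.aeval T h) * U)ᵀ * (T * ((Polynomial.aeval T h) * U))).trace
      = ∑ k, l k * h.eval (l k) ^ 2 * ∑ j, U' k j ^ 2 := by
    have e : T * (O * V) = O * (D * V) := by rw [← Matrix.mul_assoc, hO, Matrix.mul_assoc]
    rw [hAU, e, hcan, Matrix.trace]
    simp only [Matrix.diag_apply, Matrix.mul_apply, Matrix.transpose_apply]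
    rw [Finset.sum_comm]
    refine Finset.sum_congr rfl fun k _ => ?_
    rw [Finset.mul_sum]
    refine Finset.sum_congr rfl fun j _ => ?_
    have e2 : ∑ x, D k x * V x j = l k * V k j := by
      rw [← Matrix.mul_apply, hD, Matrix.diagonal_mul]
    rw [e2, hVa]
    ring
  have t2 : ∑ i, ∑ j, ((Polynomial.aeval T h) * U) i j ^ 2
      = ∑ k, h.eval (l k) ^ 2 * ∑ j, U' k j ^ 2 := by
    rw [hAU, sum_sq_eq_trace, hcan, ← sum_sq_eq_trace]
    refine Finset.sum_congr rfl fun k _ => ?_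
    rw [Finset.mul_sum]
    refine Finset.sum_congr rfl fun j _ => ?_
    rw [hVa]
    ring
  have t3 : ∑ i, ∑ j, U i j ^ 2 = ∑ k, ∑ j, U' k j ^ 2 := by
    rw [sum_sq_eq_trace, sum_sq_eq_trace, hU', Matrix.transpose_mul, Matrix.transpose_transpose,
      Matrix.mul_assoc, ← Matrix.mul_assoc O, hO2, Matrix.one_mul]
  set Q' : Matrix σ σ ℝ := Oᵀ * Q * O with hQ'
  have t4 : Q.trace = ∑ k, Q' k k := by
    have : Q'.trace = Q.trace := by
      rw [hQ', Matrix.trace_mul_comm, ← Matrix.mul_assoc, hO2, Matrix.one_mul]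
    rw [← this]; rfl
  have t5 : (T * Q).trace = ∑ k, l k * Q' k k := by
    have e1 : T = O * D * Oᵀ := by rw [← hO, Matrix.mul_assoc, hO2, Matrix.mul_one]
    have e2 : (T * Q).trace = (D * Q').trace := by
      rw [e1, hQ', Matrix.mul_assoc, Matrix.mul_assoc, Matrix.trace_mul_comm, Matrix.mul_assoc]
    rw [e2, Matrix.trace]
    refine Finset.sum_congr rfl fun k _ => ?_
    rw [Matrix.diag_apply, hD, Matrix.diagonal_mul]
  -- the columns of `O`
  have hcol : ∀ (k : σ) (A : Matrix σ σ ℝ),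
      (fun i => O i k) ⬝ᵥ A *ᵥ (fun i => O i k) = (Oᵀ * A * O) k k := by
    intro k A
    rw [Matrix.mul_assoc, Matrix.mul_apply]
    simp only [dotProduct, Matrix.mulVec, Matrix.transpose_apply, Matrix.mul_apply]
  have hone : ∀ k, (fun i => O i k) ⬝ᵥ (fun i => O i k) = 1 := by
    intro k
    have := hcol k 1
    rw [Matrix.one_mulVec, Matrix.mul_one, hO1, Matrix.one_apply_eq] at this
    exact this
  have hlk : ∀ k, -κ ≤ l k := by
    intro k
    have e := hlow (fun i => O i k)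
    rw [hone, hcol, Matrix.mul_assoc, hO, ← Matrix.mul_assoc, hO1, Matrix.one_mul, hD,
      Matrix.diagonal_apply_eq] at e
    linarith
  have hqk : ∀ k, 0 ≤ Q' k k := by
    intro k
    have e := hQ.dotProduct_mulVec_nonneg (fun i => O i k)
    have e2 : star (fun i => O i k) = fun i => O i k := by ext i; simp
    rw [e2, hcol] at e
    exact e
  have hqc : ∀ k, Q' k k ≤ c * ∑ j, U' k j ^ 2 := by
    intro k
    have e := hQU (fun i => O i k)
    rw [hcol] at e
    refine e.trans_eq ?_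
    congr 1
  rw [t1, t2, t3, t4, t5, Finset.mul_sum, Finset.mul_sum, Finset.mul_sum, ← Finset.sum_sub_distrib,
    Finset.mul_sum, ← Finset.sum_sub_distrib, ← Finset.sum_sub_distrib]
  refine Finset.sum_le_sum fun k _ => ?_
  have e := one_eig κ θ H c hθ hκ hH hc h h1 h2 (l k) (∑ j, U' k j ^ 2) (Q' k k) (hlk k)
    (Finset.sum_nonneg fun j _ => sq_nonneg _) (hqk k) (hqc k)
  nlinarith [e]

end SDX
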