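import Pool.Agent.Helper97.SDX.Pd

/-! # SDX, module B2: the pseudo-density fools squares of low degree -/

set_option autoImplicit false

open scoped BigOperators Matrix

namespace SDX

namespace h74

/-- product of the 0/1 bits -/
def xb {ι : Type} [DecidableEq ι] (I : Finset ι) (y : ι → Bool) : ℝ :=
  if ∀ i ∈ I, y i = true then 1 else 0

theorem xb_mul {ι : Type} [DecidableEq ι] (I J : Finset ι) (y : ι → Bool) :
    xb I y * xb J y = xb (I ∪ J) y := by
  unfold xb
  by_cases h1 : ∀ i ∈ I, y i = true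
  · by_cases h2 : ∀ i ∈ J, y i = true
    · rw [if_pos h1, if_pos h2, if_pos, one_mul]
      intro i hi
      rcases Finset.mem_union.mp hi with h | h
      exacts [h1 i h, h2 i h]
    · have h3 : ¬ ∀ i ∈ I ∪ J, y i = true := fun h =>
        h2 fun i hi => h i (Finset.mem_union_right _ hi)
      rw [if_neg h2, if_neg h3, mul_zero]
  · have h3 : ¬ ∀ i ∈ I ∪ J, y i = true := fun h =>
      h1 fun i hi => h i (Finset.mem_union_left _ hi)
    rw [if_neg h1, if_neg h3, zero_mul]

theorem xb_single {ι : Type} [DecidableEq ι] (a : ι) (y : ι → Bool) :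
    xb {a} y = (1 - sg (y a)) / 2 := by
  unfold xb sg
  rcases hy : y a with _ | _ <;> simp [hy]

theorem xb_mem {ι : Type} [DecidableEq ι] (I : Finset ι) : (xb I) ∈ Deg ι I.card := by
  induction I using Finset.induction_on with
  | empty =>
    have : xb (∅ : Finset ι) = fun _ => (1 : ℝ) := by funext y; simp [xb]
    rw [this]
    exact h97.const_mem 1 _
  | insert a I ha ih =>
    have h1 : xb (insert a I) = fun y => xb I y * xb {a} y := by
      funext y
      rw [xb_mul, Finset.union_comm, ← Finset.insert_eq]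
    rw [h1, Finset.card_insert_of_notMem ha]
    apply mul_mem_Deg ih
    have h2 : (xb {a} : (ι → Bool) → ℝ) = (1 / 2 : ℝ) • chr ∅ + (-1 / 2 : ℝ) • chr {a} := by
      funext y
      rw [xb_single]
      simp [chr]
      ring
    rw [h2]
    exact Submodule.add_mem _ (Submodule.smul_mem _ _ (chr_mem_Deg (by simp)))
      (Submodule.smul_mem _ _ (chr_mem_Deg (by simp)))

theorem prod_xb {ι : Type} [DecidableEq ι] (I : Finset ι) (y : ι → Bool) :
    ∏ i ∈ I, xb {i} y = xb I y := by
  induction I using Finset.induction_on with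
  | empty => simp [xb]
  | insert a I ha ih => rw [Finset.prod_insert ha, ih, xb_mul, ← Finset.insert_eq]

theorem ssum_mul_xb {m : ℕ} (I : Finset (Fin m)) (y : Fin m → Bool) :
    ssum y * xb I y = (m - 2 * I.card) * xb I y - 2 * ∑ a ∈ Iᶜ, xb (insert a I) y := by
  by_cases h : ∀ i ∈ I, y i = true
  · have h1 : xb I y = 1 := if_pos h
    have h2 : ∀ a, xb (insert a I) y = (1 - sg (y a)) / 2 := by
      intro a
      rw [Finset.insert_eq, ← xb_mul, h1, xb_single, mul_one]
    have h3 : ssum y = ∑ a ∈ I, sg (y a) + ∑ a ∈ Iᶜ, sg (y a) := by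
      rw [ssum, Finset.sum_add_sum_compl]
    have h4 : ∑ a ∈ I, sg (y a) = -(I.card : ℝ) := by
      rw [Finset.sum_congr rfl (fun a ha => by rw [h a ha])]
      simp [sg]
    have h5 : ((Iᶜ).card : ℝ) = m - I.card := by
      rw [Finset.card_compl, Fintype.card_fin,
        Nat.cast_sub (by simpa using Finset.card_le_univ I)]
    rw [h1, Finset.sum_congr rfl fun a _ => h2 a, ← Finset.sum_div, Finset.sum_sub_distrib,
      Finset.sum_const, h3, h4, nsmul_eq_mul, h5]
    ring
  · have h1 : xb I y = 0 := if_neg h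
    rw [h1, Finset.sum_eq_zero]
    · ring
    · intro a _
      exact if_neg fun h' => h fun i hi => h' i (Finset.mem_insert_of_mem hi)

theorem rel {m : ℕ} (hm : Odd m) (I : Finset (Fin m)) (k : ℕ) (hk : I.card + k ≤ m - 1)
    (h : (Fin m → Bool) → ℝ) (hh : h ∈ Deg (Fin m) k) :
    ∑ a ∈ Iᶜ, ∑ y, pd m y * (xb (insert a I) y * h y)
      = ((m : ℝ) / 2 - I.card) * ∑ y, pd m y * (xb I y * h y) := by
  have h1 := pd_kill m hm (fun y => xb I y * h y) (Deg_mono hk (mul_mem_Deg (xb_mem I) hh))
  have h2 : ∀ y, pd m y * (ssum y * (xb I y * h y))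
      = (m - 2 * I.card) * (pd m y * (xb I y * h y))
        - 2 * ∑ a ∈ Iᶜ, pd m y * (xb (insert a I) y * h y) := by
    intro y
    have h3 := ssum_mul_xb I y
    have h4 : ∑ a ∈ Iᶜ, pd m y * (xb (insert a I) y * h y)
        = pd m y * h y * ∑ a ∈ Iᶜ, xb (insert a I) y := by
      rw [Finset.mul_sum]
      exact Finset.sum_congr rfl fun a _ => by ring
    rw [h4]
    linear_combination (pd m y * h y) * h3
  rw [Finset.sum_congr rfl fun y _ => h2 y, Finset.sum_sub_distrib, ← Finset.mul_sum,
    ← Finset.mul_sum, Finset.sum_comm] at h1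
  linarith

/-- functions which agree with a homogeneous one -/
def Hom (m t : ℕ) : Submodule ℝ ((Fin m → Bool) → ℝ) where
  carrier := {g | ∃ c : Finset (Fin m) → ℝ, ∀ h ∈ Deg (Fin m) t,
      ∑ y, pd m y * (g y * h y)
        = ∑ y, pd m y * ((∑ J ∈ Finset.univ.powersetCard t, c J * xb J y) * h y)}
  zero_mem' := ⟨0, by simp⟩
  add_mem' := by
    rintro f g ⟨c, hc⟩ ⟨d, hd⟩
    refine ⟨c + d, fun h hh => ?_⟩
    have h1 : ∀ y, pd m y * ((f + g) y * h y) = pd m y * (f y * h y) + pd m y * (g y * h y) := by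
      intro y
      simp only [Pi.add_apply]
      ring
    have h2 : ∀ y, pd m y * ((∑ J ∈ Finset.univ.powersetCard t, (c + d) J * xb J y) * h y)
        = pd m y * ((∑ J ∈ Finset.univ.powersetCard t, c J * xb J y) * h y)
          + pd m y * ((∑ J ∈ Finset.univ.powersetCard t, d J * xb J y) * h y) := by
      intro y
      simp only [Pi.add_apply, add_mul, Finset.sum_add_distrib]
      ring
    rw [Finset.sum_congr rfl fun y _ => h1 y, Finset.sum_add_distrib, hc h hh, hd h hh,
      Finset.sum_congr rfl fun y _ => h2 y, Finset.sum_add_distrib]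
  smul_mem' := by
    rintro a g ⟨c, hc⟩
    refine ⟨a • c, fun h hh => ?_⟩
    have h1 : ∀ y, pd m y * ((a • g) y * h y) = a * (pd m y * (g y * h y)) := by
      intro y
      simp only [Pi.smul_apply, smul_eq_mul]
      ring
    have h2 : ∀ y, pd m y * ((∑ J ∈ Finset.univ.powersetCard t, (a • c) J * xb J y) * h y)
        = a * (pd m y * ((∑ J ∈ Finset.univ.powersetCard t, c J * xb J y) * h y)) := by
      intro y
      simp only [Pi.smul_apply, smul_eq_mul, mul_assoc, ← Finset.mul_sum]
      ring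
    rw [Finset.sum_congr rfl fun y _ => h1 y, ← Finset.mul_sum, hc h hh,
      Finset.sum_congr rfl fun y _ => h2 y, ← Finset.mul_sum]

theorem xb_Hom {m t : ℕ} (hm : Odd m) (ht : 4 * t ≤ m) :
    ∀ (d : ℕ) (I : Finset (Fin m)), I.card + d = t → xb I ∈ Hom m t := by
  intro d
  induction d with
  | zero =>
    intro I hI
    refine ⟨fun J => if J = I then 1 else 0, fun h hh => ?_⟩
    refine Finset.sum_congr rfl fun y _ => ?_
    congr 2
    rw [Finset.sum_eq_single I]
    · simp
    · intro J _ hJ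
      simp [hJ]
    · intro hI'
      exact absurd (Finset.mem_powersetCard.mpr ⟨Finset.subset_univ _, by omega⟩) hI'
  | succ d ih =>
    intro I hI
    have hpos : (0 : ℝ) < (m : ℝ) / 2 - I.card := by
      have h1 : 2 * I.card < m := by omega
      have h2 : (2 : ℝ) * I.card < m := by exact_mod_cast h1
      linarith
    have h1 : (((m : ℝ) / 2 - I.card)⁻¹ • ∑ a ∈ Iᶜ, xb (insert a I)) ∈ Hom m t := by
      refine Submodule.smul_mem _ _ (Submodule.sum_mem _ fun a ha => ih _ ?_)
      rw [Finset.card_insert_of_notMem (Finset.mem_compl.mp ha)]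
      omega
    obtain ⟨c, hc⟩ := h1
    refine ⟨c, fun h hh => ?_⟩
    rw [← hc h hh]
    have h2 := rel hm I t (by omega) h hh
    have h3 : ∀ y, pd m y * ((((m : ℝ) / 2 - I.card)⁻¹ • ∑ a ∈ Iᶜ, xb (insert a I)) y * h y)
        = ((m : ℝ) / 2 - I.card)⁻¹ * ∑ a ∈ Iᶜ, pd m y * (xb (insert a I) y * h y) := by
      intro y
      have h4 : ∑ a ∈ Iᶜ, pd m y * (xb (insert a I) y * h y)
          = pd m y * h y * ∑ a ∈ Iᶜ, xb (insert a I) y := by
        rw [Finset.mul_sum]
        exact Finset.sum_congr rfl fun a _ => by ring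
      rw [h4, Pi.smul_apply, Finset.sum_apply, smul_eq_mul]
      ring
    rw [Finset.sum_congr rfl fun y _ => h3 y, ← Finset.mul_sum, Finset.sum_comm, h2,
      inv_mul_cancel_left₀ hpos.ne']

theorem Deg_le_Hom {m t : ℕ} (hm : Odd m) (ht : 4 * t ≤ m) : Deg (Fin m) t ≤ Hom m t := by
  refine Submodule.span_le.mpr ?_
  rintro f ⟨α, hα, rfl⟩
  have h1 : (chr α : (Fin m → Bool) → ℝ) = ∑ I ∈ α.powerset, ((-2 : ℝ) ^ I.card) • xb I := by
    funext y
    have h2 : ∀ i, sg (y i) = 1 + (-2) * xb {i} y := by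
      intro i
      rw [xb_single]
      ring
    rw [chr, Finset.prod_congr rfl fun i _ => h2 i, Finset.prod_one_add, Finset.sum_apply]
    refine Finset.sum_congr rfl fun I _ => ?_
    rw [Finset.prod_mul_distrib, Finset.prod_const, Pi.smul_apply, smul_eq_mul]
    congr 1
    exact prod_xb I y
  rw [h1]
  refine Submodule.sum_mem _ fun I hI => Submodule.smul_mem _ _ ?_
  have h3 : I.card ≤ t := (Finset.card_le_card (Finset.mem_powerset.mp hI)).trans hα
  exact xb_Hom hm ht (t - I.card) I (by omega)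

/-- symmetry -/
theorem E_symm {m : ℕ} (K K' : Finset (Fin m)) (h : K.card = K'.card) :
    ∑ y, pd m y * xb K y = ∑ y, pd m y * xb K' y := by
  set σ : Equiv.Perm (Fin m) := (Finset.equivOfCardEq h).extendSubtype with hσ
  have h1 : ∀ x, x ∈ K → σ x ∈ K' := fun x hx =>
    Equiv.extendSubtype_mem (Finset.equivOfCardEq h) x hx
  have h2 : ∀ x, x ∉ K → σ x ∉ K' := fun x hx =>
    Equiv.extendSubtype_not_mem (Finset.equivOfCardEq h) x hx
  have h3 : ∀ y : Fin m → Bool, xb K (y ∘ σ) = xb K' y := by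
    intro y
    unfold xb
    congr 1
    rw [eq_iff_iff]
    constructor
    · intro h4 i hi
      have h5 : σ.symm i ∈ K := by
        by_contra h6
        have := h2 _ h6
        rw [Equiv.apply_symm_apply] at this
        exact this hi
      have := h4 _ h5
      rwa [Function.comp_apply, Equiv.apply_symm_apply] at this
    · intro h4 i hi
      exact h4 _ (h1 i hi)
  have h4 : ∀ y : Fin m → Bool, pd m (y ∘ σ) = pd m y := by
    intro y
    unfold pd chr ssum
    congr 2
    · exact Equiv.prod_comp σ (fun i => sg (y i))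
    · exact Equiv.sum_comp σ (fun i => sg (y i))
  rw [← Equiv.sum_comp (Equiv.arrowCongr σ.symm (Equiv.refl Bool)) (fun y => pd m y * xb K y)]
  refine Finset.sum_congr rfl fun y _ => ?_
  have h5 : (Equiv.arrowCongr σ.symm (Equiv.refl Bool)) y = y ∘ σ := by
    funext i
    simp [Equiv.arrowCongr]
  rw [h5, h3, h4]

/-- quotient of two rising factorials -/
noncomputable def R (a b : ℝ) (s : ℕ) : ℝ := ∏ i ∈ Finset.range s, (a + i) / (b + i)

theorem R_shift (a b : ℝ) (hb : 0 < b) (s : ℕ) : R a (b + 1) s * (b + s) = R a b s * b := by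
  induction s with
  | zero => simp [R]
  | succ s ih =>
    have h1 : (0 : ℝ) < b + s := by positivity
    have h2 : (0 : ℝ) < b + 1 + s := by positivity
    unfold R at ih ⊢
    rw [Finset.prod_range_succ, Finset.prod_range_succ]
    push_cast
    rw [mul_assoc, div_mul_eq_mul_div, show b + (↑s + 1) = b + 1 + ↑s by ring,
      mul_div_cancel_right₀ _ h2.ne', mul_assoc, div_mul_eq_mul_div, mul_comm _ b,
      ← mul_div_assoc, eq_div_iff h1.ne']
    linear_combination (a + s) * ih

theorem R_diff (a b : ℝ) (hb : 0 < b) :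
    fwdDiff 1 (R a b) = fun s => (a - b) / b * R a (b + 1) s := by
  funext s
  have h1 : (0 : ℝ) < b + s := by positivity
  have h2 := R_shift a b hb s
  have h3 : R a (b + 1) s = R a b s * b / (b + s) := by
    rw [eq_div_iff h1.ne', h2]
  have h4 : R a b (s + 1) = R a b s * ((a + s) / (b + s)) := by
    unfold R
    rw [Finset.prod_range_succ]
  rw [fwdDiff, h3, h4]
  field_simp
  ring

theorem R_iter (a b : ℝ) (hb : 0 < b) (C : ℝ) (j : ℕ) :
    (fwdDiff 1)^[j] (fun s => C * R a b s)
      = fun s => C * (∏ i ∈ Finset.range j, (a - b - i) / (b + i)) * R a (b + j) s := by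
  induction j with
  | zero => simp
  | succ j ih =>
    rw [Function.iterate_succ_apply', ih]
    funext s
    have h1 : (0 : ℝ) < b + j := by positivity
    have h2 := congrFun (R_diff a (b + j) h1) s
    rw [fwdDiff] at h2 ⊢
    rw [← mul_sub, h2, Finset.prod_range_succ]
    push_cast
    rw [show b + ↑j + 1 = b + (↑j + 1) by ring, show a - (b + ↑j) = a - b - ↑j by ring]
    ring

theorem psd_newton {m t : ℕ} (F : ℕ → ℝ) (hF : ∀ j ≤ t, 0 ≤ (fwdDiff 1)^[j] F 0)
    (c : Finset (Fin m) → ℝ) :
    0 ≤ ∑ I ∈ Finset.univ.powersetCard t, ∑ J ∈ Finset.univ.powersetCard t,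
      c I * c J * F (I ∩ J).card := by
  set P := (Finset.univ : Finset (Fin m)).powersetCard t with hP
  have h1 : ∀ s ≤ t, F s = ∑ j ∈ Finset.range (t + 1), (s.choose j : ℝ) * (fwdDiff 1)^[j] F 0 := by
    intro s hs
    have h2 := shift_eq_sum_fwdDiff_iter 1 F s 0
    simp only [zero_add, nsmul_eq_mul, Nat.cast_id, mul_one] at h2
    rw [h2]
    refine Finset.sum_subset (Finset.range_mono (by omega)) fun j _ hj => ?_
    rw [Finset.mem_range] at hj
    rw [Nat.choose_eq_zero_of_lt (by omega)]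
    simp
  have h2 : ∀ (j : ℕ) (I J : Finset (Fin m)), ((I ∩ J).card.choose j : ℝ)
      = ∑ U ∈ Finset.univ.powersetCard j, (if U ⊆ I then (1 : ℝ) else 0)
        * (if U ⊆ J then (1 : ℝ) else 0) := by
    intro j I J
    rw [← Finset.card_powersetCard, Finset.card_eq_sum_ones, Nat.cast_sum]
    have h3 : (I ∩ J).powersetCard j = (Finset.univ.powersetCard j).filter
        (fun U => U ⊆ I ∧ U ⊆ J) := by
      ext U
      simp only [Finset.mem_powersetCard, Finset.mem_filter, Finset.subset_univ, true_and,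
        Finset.subset_inter_iff]
      tauto
    rw [h3, Finset.sum_filter]
    refine Finset.sum_congr rfl fun U _ => ?_
    by_cases h4 : U ⊆ I <;> by_cases h5 : U ⊆ J <;> simp [h4, h5]
  have h3 : ∑ I ∈ P, ∑ J ∈ P, c I * c J * F (I ∩ J).card
      = ∑ j ∈ Finset.range (t + 1), (fwdDiff 1)^[j] F 0 *
        ∑ U ∈ (Finset.univ : Finset (Fin m)).powersetCard j,
          (∑ I ∈ P, c I * (if U ⊆ I then (1 : ℝ) else 0)) ^ 2 := by
    have h4 : ∀ I ∈ P, ∀ J ∈ P, c I * c J * F (I ∩ J).card
        = ∑ j ∈ Finset.range (t + 1), ∑ U ∈ (Finset.univ : Finset (Fin m)).powersetCard j,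
          (fwdDiff 1)^[j] F 0 * ((c I * (if U ⊆ I then (1 : ℝ) else 0))
            * (c J * (if U ⊆ J then (1 : ℝ) else 0))) := by
      intro I hI J hJ
      have h5 : (I ∩ J).card ≤ t :=
        (Finset.card_le_card Finset.inter_subset_left).trans (Finset.mem_powersetCard.mp hI).2.le
      rw [h1 _ h5, Finset.mul_sum]
      refine Finset.sum_congr rfl fun j _ => ?_
      rw [h2, Finset.sum_mul, Finset.mul_sum]
      exact Finset.sum_congr rfl fun U _ => by ring
    rw [Finset.sum_congr rfl fun I hI => Finset.sum_congr rfl fun J hJ => h4 I hI J hJ]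
    rw [Finset.sum_congr rfl fun I _ => Finset.sum_comm, Finset.sum_comm]
    refine Finset.sum_congr rfl fun j _ => ?_
    rw [Finset.sum_congr rfl fun I _ => Finset.sum_comm, Finset.sum_comm, Finset.mul_sum]
    refine Finset.sum_congr rfl fun U _ => ?_
    rw [sq, Finset.sum_mul_sum, Finset.mul_sum]
    refine Finset.sum_congr rfl fun I _ => ?_
    rw [Finset.mul_sum]
  rw [h3]
  refine Finset.sum_nonneg fun j hj => mul_nonneg (hF j ?_)
    (Finset.sum_nonneg fun U _ => sq_nonneg _)
  have := Finset.mem_range.mp hj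
  omega

/-- the moments -/
noncomputable def ee (m i : ℕ) : ℝ :=
  ∑ y, pd m y * xb (Finset.univ.filter fun k : Fin m => k.val < i) y

theorem E_eq {m : ℕ} (K : Finset (Fin m)) : ∑ y, pd m y * xb K y = ee m K.card := by
  have hle : K.card ≤ m := by simpa using Finset.card_le_univ K
  refine E_symm _ _ ?_
  rw [Fin.card_filter_val_lt, min_eq_right hle]

theorem ee_rec {m : ℕ} (hm : Odd m) (i : ℕ) (hi : i < m) :
    ((m : ℝ) - i) * ee m (i + 1) = ((m : ℝ) / 2 - i) * ee m i := by
  set I := Finset.univ.filter fun k : Fin m => k.val < i with hI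
  have hc : I.card = i := by rw [hI, Fin.card_filter_val_lt, min_eq_right hi.le]
  have h1 := rel hm I 0 (by omega) (fun _ => 1) (h97.const_mem 1 0)
  simp only [mul_one] at h1
  rw [E_eq I, hc] at h1
  have h2 : ∀ a ∈ Iᶜ, ∑ y, pd m y * xb (insert a I) y = ee m (i + 1) := by
    intro a ha
    rw [E_eq, Finset.card_insert_of_notMem (Finset.mem_compl.mp ha), hc]
  rw [Finset.sum_congr rfl h2, Finset.sum_const, Finset.card_compl, Fintype.card_fin, hc,
    nsmul_eq_mul, Nat.cast_sub hi.le] at h1
  exact h1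

theorem ee_zero {m : ℕ} (hm : Odd m) : ee m 0 = 2 ^ m := by
  have h1 := pd_exact m hm 1 (by simp)
  simp only [Polynomial.eval_one, mul_one] at h1
  rw [← h1]
  unfold ee xb
  simp

theorem ee_nonneg {m : ℕ} (hm : Odd m) (i : ℕ) (hi : 2 * i ≤ m) : 0 ≤ ee m i := by
  induction i with
  | zero => rw [ee_zero hm]; positivity
  | succ i ih =>
    have h1 := ee_rec hm i (by omega)
    have h2 := ih (by omega)
    have h3 : (2 : ℝ) * (i + 1) ≤ m := by exact_mod_cast hi
    have h4 : (0 : ℝ) < m - i := by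
      have : (0 : ℝ) ≤ i := Nat.cast_nonneg i
      linarith
    have h5 : (0 : ℝ) ≤ (m : ℝ) / 2 - i := by linarith
    have h6 : 0 ≤ ((m : ℝ) - i) * ee m (i + 1) := by rw [h1]; exact mul_nonneg h5 h2
    exact nonneg_of_mul_nonneg_right h6 h4

end h74

open h74

/-- B2 (uses pd_exact for constants and pd_kill only) -/
theorem pd_fool (m t : ℕ) (hm : Odd m) (ht : 4 * t ≤ m) (g : (Fin m → Bool) → ℝ)
    (hg : g ∈ Deg (Fin m) t) : 0 ≤ ∑ y, pd m y * g y ^ 2 := by
  obtain ⟨c, hc⟩ := Deg_le_Hom hm ht hg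
  set P := (Finset.univ : Finset (Fin m)).powersetCard t with hP
  set f : (Fin m → Bool) → ℝ := fun y => ∑ J ∈ P, c J * xb J y with hf
  have hfD : f ∈ Deg (Fin m) t := by
    refine sum_mem_Deg _ _ _ fun J hJ => ?_
    have h1 := xb_mem J
    rwa [(Finset.mem_powersetCard.mp hJ).2] at h1
  have h1 : ∑ y, pd m y * g y ^ 2 = ∑ y, pd m y * (f y * f y) := by
    have e1 := hc g hg
    have e2 := hc f hfD
    have e3 : ∑ y, pd m y * g y ^ 2 = ∑ y, pd m y * (g y * g y) :=
      Finset.sum_congr rfl fun y _ => by ring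
    rw [e3, e1]
    have e4 : ∑ y, pd m y * ((∑ J ∈ P, c J * xb J y) * g y) = ∑ y, pd m y * (g y * f y) :=
      Finset.sum_congr rfl fun y _ => by rw [hf]; ring
    rw [e4, e2]
  have h2 : ∑ y, pd m y * (f y * f y) = ∑ I ∈ P, ∑ J ∈ P, c I * c J * ee m (I ∪ J).card := by
    have e1 : ∀ y, pd m y * (f y * f y)
        = ∑ I ∈ P, ∑ J ∈ P, c I * c J * (pd m y * xb (I ∪ J) y) := by
      intro y
      rw [hf]
      simp only
      rw [Finset.sum_mul_sum, Finset.mul_sum]
      refine Finset.sum_congr rfl fun I _ => ?_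
      rw [Finset.mul_sum]
      refine Finset.sum_congr rfl fun J _ => ?_
      rw [← xb_mul]
      ring
    rw [Finset.sum_congr rfl fun y _ => e1 y, Finset.sum_comm]
    refine Finset.sum_congr rfl fun I _ => ?_
    rw [Finset.sum_comm]
    refine Finset.sum_congr rfl fun J _ => ?_
    rw [← Finset.mul_sum, E_eq]
  have ht' : (4 : ℝ) * t ≤ m := by exact_mod_cast ht
  set a : ℝ := m - 2 * t + 1 with ha
  set b : ℝ := m / 2 - 2 * t + 1 with hb
  have hb0 : 0 < b := by rw [hb]; linarith
  have h3 : ∀ s ≤ 2 * t, ee m (2 * t - s) = ee m (2 * t) * R a b s := by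
    intro s
    induction s with
    | zero => intro _; simp [R]
    | succ s ih =>
      intro hs
      have e1 := ee_rec hm (2 * t - (s + 1)) (by omega)
      rw [show 2 * t - (s + 1) + 1 = 2 * t - s by omega, ih (by omega)] at e1
      have e2 : ((2 * t - (s + 1) : ℕ) : ℝ) = 2 * t - (s + 1) := by
        rw [Nat.cast_sub hs]; push_cast; ring
      rw [e2] at e1
      have e3 : R a b (s + 1) = R a b s * ((a + s) / (b + s)) := by
        unfold R
        rw [Finset.prod_range_succ]
      have e4 : (0 : ℝ) < b + s := by positivity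
      rw [e3, ← mul_div_assoc, ← mul_div_assoc, eq_div_iff e4.ne']
      rw [ha, hb] at *
      linear_combination -e1
  have h4 : ∀ I ∈ P, ∀ J ∈ P, c I * c J * ee m (I ∪ J).card
      = c I * c J * (fun s => ee m (2 * t) * R a b s) (I ∩ J).card := by
    intro I hI J hJ
    have e1 := (Finset.mem_powersetCard.mp hI).2
    have e2 := (Finset.mem_powersetCard.mp hJ).2
    have e3 := Finset.card_union_add_card_inter I J
    have e4 : (I ∩ J).card ≤ t := (Finset.card_le_card Finset.inter_subset_left).trans e1.le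
    have e5 : (I ∪ J).card = 2 * t - (I ∩ J).card := by omega
    rw [e5, h3 _ (by omega)]
  rw [h1, h2, Finset.sum_congr rfl fun I hI => Finset.sum_congr rfl fun J hJ => h4 I hI J hJ]
  refine psd_newton (t := t) (fun s => ee m (2 * t) * R a b s) (fun j hj => ?_) c
  rw [R_iter a b hb0]
  have e0 := ee_nonneg hm (2 * t) (by omega)
  have e1 : R a (b + j) 0 = 1 := by simp [R]
  simp only [e1, mul_one]
  refine mul_nonneg e0 (Finset.prod_nonneg fun i hi => ?_)
  have e2 : i < j := Finset.mem_range.mp hi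
  have e3 : (i : ℝ) ≤ t := by exact_mod_cast (by omega : i ≤ t)
  have e4 : (0 : ℝ) ≤ i := Nat.cast_nonneg i
  have e5 : (0 : ℝ) ≤ t := Nat.cast_nonneg t
  refine div_nonneg ?_ (by positivity)
  rw [ha, hb]
  linarith

end SDX
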