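import Pool.Agent.Helper74.SDX.NumGen

/-! # SDX3, module L3: the numbers -/

set_option autoImplicit false

open scoped BigOperators

namespace SDX

open h74

/-- L3: the numbers -/
theorem numbers3 (ν : ℝ) (hν₀ : 0 < ν) (hν₁ : ν ≤ 1) :
    ∃ c > 0, ∃ n₀ : ℕ, ∀ n : ℕ, n₀ ≤ n → ∃ m b t i K : ℕ, Odd m ∧ 0 < b ∧ m * b ≤ n ∧
      4 * t ≤ m ∧ 4 * i ≤ t ∧ 8 * i + 2 ≤ m ∧
      2048 * Real.sqrt m * ((m : ℝ) / (2 * i + 1)) ^ 5 ≤ ν ^ 2 * b ∧ ∀ r : ℕ, 0 < r →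
        (r : ℝ) ≤ Real.exp (c * Real.sqrt n) + 1 →
        Real.sqrt (2560 * ((m : ℝ) / (2 * i + 1)) ^ 3 / ν)
          * Real.log (100000 * (m : ℝ) ^ 4 * r / ν) ≤ K ∧
        (r : ℝ) *
          (16 ^ m * (((K * m + 4 * i).choose (t + 1 - 4 * i) : ℝ) / (b : ℝ) ^ (t + 1 - 4 * i)))
            * (10 : ℝ) ^ 11 * (m : ℝ) ^ 3 * ((m : ℝ) / (2 * i + 1)) ^ 6 ≤ ν ^ 3 := by
  obtain ⟨c, hc, n₀, h⟩ := numbers_gen (Real.sqrt (2560 * 16 ^ 3 / ν)) (100000 / ν)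
    (10 ^ 11 * 16 ^ 6 / ν ^ 3) (2048 * 16 ^ 5 / ν ^ 2) 1 4
    (Real.sqrt_pos.mpr (by positivity)) (by positivity) (by positivity)
  refine ⟨c, hc, n₀, fun n hn => ?_⟩
  obtain ⟨m, b, t, i, K, h1, h2, h3, h4, h5, h6, h7, h8, h9, h10⟩ := h n hn
  refine ⟨m, b, t, i, K, h1, h2, h3, h4, h5, h6, ?_, fun r hr hrn => ?_⟩
  · have hL0 : (0 : ℝ) ≤ (m : ℝ) / (2 * i + 1) := by positivity
    have k1 : ((m : ℝ) / (2 * i + 1)) ^ 5 ≤ 16 ^ 5 := pow_le_pow_left₀ hL0 h7 5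
    have k2 : 2048 * 16 ^ 5 * Real.sqrt m ≤ ν ^ 2 * b := by
      have k3 := mul_le_mul_of_nonneg_left h8 (show 0 ≤ ν ^ 2 by positivity)
      have k4 : ν ^ 2 * (2048 * 16 ^ 5 / ν ^ 2 * Real.sqrt m) = 2048 * 16 ^ 5 * Real.sqrt m := by
        field_simp
      linarith
    calc 2048 * Real.sqrt m * ((m : ℝ) / (2 * i + 1)) ^ 5 ≤ 2048 * Real.sqrt m * 16 ^ 5 := by
          gcongr
      _ = 2048 * 16 ^ 5 * Real.sqrt m := by ring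
      _ ≤ ν ^ 2 * b := k2
  · obtain ⟨g1, g2⟩ := h10 r hr hrn
    have hL0 : (0 : ℝ) ≤ (m : ℝ) / (2 * i + 1) := by positivity
    have hr1 : (1 : ℝ) ≤ r := by exact_mod_cast hr
    refine ⟨?_, ?_⟩
    · have k1 : Real.sqrt (2560 * ((m : ℝ) / (2 * i + 1)) ^ 3 / ν)
          ≤ Real.sqrt (2560 * 16 ^ 3 / ν) := by
        apply Real.sqrt_le_sqrt
        have : ((m : ℝ) / (2 * i + 1)) ^ 3 ≤ 16 ^ 3 := pow_le_pow_left₀ hL0 h7 3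
        gcongr
      have k2 : 100000 * (m : ℝ) ^ 4 * r / ν = 100000 / ν * (m : ℝ) ^ 4 * r := by ring
      have k3 : 0 ≤ Real.log (100000 / ν * (m : ℝ) ^ 4 * r) := by
        apply Real.log_nonneg
        have k4 : (1 : ℝ) ≤ (m : ℝ) ^ 4 := one_le_pow₀ h9
        have k5 : (1 : ℝ) ≤ 100000 / ν := by
          rw [le_div_iff₀ hν₀]
          linarith
        calc (1 : ℝ) = 1 * 1 * 1 := by norm_num
          _ ≤ 100000 / ν * (m : ℝ) ^ 4 * r := by gcongr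
      rw [k2]
      exact (mul_le_mul_of_nonneg_right k1 k3).trans g1
    · have k1 : ((m : ℝ) / (2 * i + 1)) ^ 6 ≤ 16 ^ 6 := pow_le_pow_left₀ hL0 h7 6
      have k0 : (1 : ℝ) ≤ m := h9
      have k2 : (m : ℝ) ^ 3 ≤ (m : ℝ) ^ 4 := pow_le_pow_right₀ k0 (by norm_num)
      set Z : ℝ := (r : ℝ) *
          (16 ^ m * (((K * m + 4 * i).choose (t + 1 - 4 * i) : ℝ) / (b : ℝ) ^ (t + 1 - 4 * i)))
        with hZ
      have hZ0 : 0 ≤ Z := by positivity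
      have k3 := mul_le_mul_of_nonneg_left g2 (show 0 ≤ ν ^ 3 by positivity)
      have k4 : ν ^ 3 * (Z * (10 ^ 11 * 16 ^ 6 / ν ^ 3 * (m : ℝ) ^ 4))
          = Z * 10 ^ 11 * (m : ℝ) ^ 4 * 16 ^ 6 := by
        field_simp
      calc Z * (10 : ℝ) ^ 11 * (m : ℝ) ^ 3 * ((m : ℝ) / (2 * i + 1)) ^ 6
          ≤ Z * (10 : ℝ) ^ 11 * (m : ℝ) ^ 4 * 16 ^ 6 := by gcongr
        _ ≤ ν ^ 3 := by linarith

end SDX
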