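import Mathlib

/-! # SDX, the numbers for the log-free versions, in a general form -/

set_option autoImplicit false

open scoped BigOperators

namespace SDX

namespace h74

theorem choose_bd (N s b : ℕ) (hb : 0 < b) (hs : 0 < s) (q : ℝ)
    (hq : Real.exp 1 * N ≤ q * (s * b)) : (N.choose s : ℝ) / (b : ℝ) ^ s ≤ q ^ s := by
  have h1 : (N.choose s : ℝ) ≤ (N : ℝ) ^ s / (s.factorial : ℝ) := Nat.choose_le_pow_div s N
  have hs0 : (0 : ℝ) < s := by exact_mod_cast hs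
  have hb0 : (0 : ℝ) < b := by exact_mod_cast hb
  have h2 : (s : ℝ) ^ s / (s.factorial : ℝ) ≤ Real.exp s :=
    Real.pow_div_factorial_le_exp _ hs0.le s
  have hf : (0 : ℝ) < s.factorial := by positivity
  have h3 : Real.exp s = Real.exp 1 ^ s := by
    rw [← Real.exp_nat_mul, mul_one]
  have hq0 : 0 ≤ q := by
    by_contra h
    push Not at h
    have : q * (s * b) < 0 := mul_neg_of_neg_of_pos h (by positivity)
    have h5 : 0 ≤ Real.exp 1 * N := by positivity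
    linarith
  rw [div_le_iff₀ (by positivity)]
  refine h1.trans ?_
  rw [div_le_iff₀ hf]
  have h4 : (Real.exp 1 * N) ^ s ≤ (q * (s * b)) ^ s := pow_le_pow_left₀ (by positivity) hq s
  rw [div_le_iff₀ hf, h3] at h2
  have h5 : (N : ℝ) ^ s * (s : ℝ) ^ s ≤ q ^ s * (b : ℝ) ^ s * s.factorial * (s : ℝ) ^ s := by
    calc (N : ℝ) ^ s * (s : ℝ) ^ s ≤ (N : ℝ) ^ s * (Real.exp 1 ^ s * s.factorial) := by
          gcongr
      _ = (Real.exp 1 * N) ^ s * s.factorial := by rw [mul_pow]; ring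
      _ ≤ (q * (s * b)) ^ s * s.factorial := by gcongr
      _ = q ^ s * (b : ℝ) ^ s * s.factorial * (s : ℝ) ^ s := by
          rw [mul_pow, mul_pow]; ring
  exact le_of_mul_le_mul_right h5 (by positivity)

/-- for one value of `i`: `m = 32 i + 1`, `t = 8 i` -/
theorem num_core (A₁ A₂ A₃ A₄ : ℝ) (p : ℕ) (h₁ : 0 < A₁) (h₂ : 0 < A₂) (h₃ : 0 < A₃)
    (C : ℕ) (hC : (16 : ℝ) ^ 8 * 8 * Real.exp 2 ≤ C) (i : ℕ) (hi : 1 ≤ i)
    (e₁ : Real.log (A₂ * (33 * i) ^ p) + Real.log 2 ≤ i)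
    (e₂ : 2 * A₃ * (33 * (i : ℝ)) ^ p ≤ Real.exp (3 * i))
    (e₄ : A₄ * Real.sqrt (33 * i) ≤ i) :
    ∃ b K : ℕ, 0 < b ∧
      (((32 * i + 1) * b : ℕ) : ℝ) ≤ 33 * C * (2 * A₁ + 3) * (i : ℝ) ^ 2 ∧
      A₄ * Real.sqrt ((32 * i + 1 : ℕ) : ℝ) ≤ b ∧
      ∀ r : ℕ, 0 < r → (r : ℝ) ≤ 2 * Real.exp i →
        A₁ * Real.log (A₂ * ((32 * i + 1 : ℕ) : ℝ) ^ p * r) ≤ K ∧
        (r : ℝ) * (16 ^ (32 * i + 1) *
          (((K * (32 * i + 1) + 4 * i).choose (4 * i + 1) : ℝ) / (b : ℝ) ^ (4 * i + 1)))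
            * (A₃ * ((32 * i + 1 : ℕ) : ℝ) ^ p) ≤ 1 := by
  have hi1 : (1 : ℝ) ≤ i := by exact_mod_cast hi
  have hi0 : (0 : ℝ) < i := by linarith
  have hm : ((32 * i + 1 : ℕ) : ℝ) ≤ 33 * i := by push_cast; linarith
  have hm0 : (0 : ℝ) < ((32 * i + 1 : ℕ) : ℝ) := by positivity
  have hC0 : (0 : ℝ) < C := lt_of_lt_of_le (by positivity) hC
  have hC1 : 0 < C := by exact_mod_cast hC0
  have hC1' : (1 : ℝ) ≤ C := by exact_mod_cast hC1
  obtain ⟨K, hK1, hK2⟩ : ∃ K : ℕ, 2 * A₁ * i ≤ K ∧ (K : ℝ) ≤ 2 * A₁ * i + 1 :=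
    ⟨⌈2 * A₁ * i⌉₊, Nat.le_ceil _, (Nat.ceil_lt_add_one (by positivity)).le⟩
  refine ⟨C * (K + 1 + i), K, by positivity, ?_, ?_, ?_⟩
  · have k1 : ((C * (K + 1 + i) : ℕ) : ℝ) ≤ C * ((2 * A₁ + 3) * i) := by
      push_cast
      refine mul_le_mul_of_nonneg_left ?_ hC0.le
      nlinarith
    have k2 : (((32 * i + 1) * (C * (K + 1 + i)) : ℕ) : ℝ)
        = ((32 * i + 1 : ℕ) : ℝ) * ((C * (K + 1 + i) : ℕ) : ℝ) := by
      rw [Nat.cast_mul]
    rw [k2]
    calc ((32 * i + 1 : ℕ) : ℝ) * ((C * (K + 1 + i) : ℕ) : ℝ)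
        ≤ (33 * i) * (C * ((2 * A₁ + 3) * i)) := by
          apply mul_le_mul hm k1 (by positivity) (by positivity)
      _ = 33 * C * (2 * A₁ + 3) * (i : ℝ) ^ 2 := by ring
  · have k1 : A₄ * Real.sqrt ((32 * i + 1 : ℕ) : ℝ) ≤ i := by
      rcases le_total 0 A₄ with h | h
      · exact (mul_le_mul_of_nonneg_left (Real.sqrt_le_sqrt hm) h).trans e₄
      · have : A₄ * Real.sqrt ((32 * i + 1 : ℕ) : ℝ) ≤ 0 :=
          mul_nonpos_of_nonpos_of_nonneg h (Real.sqrt_nonneg _)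
        linarith
    refine k1.trans ?_
    have k2 : i ≤ C * (K + 1 + i) := by
      calc i ≤ K + 1 + i := by omega
        _ = 1 * (K + 1 + i) := by ring
        _ ≤ C * (K + 1 + i) := Nat.mul_le_mul_right _ hC1
    exact_mod_cast k2
  · intro r hr hr2
    have hr0 : (0 : ℝ) < r := by exact_mod_cast hr
    refine ⟨?_, ?_⟩
    · have k1 : A₂ * ((32 * i + 1 : ℕ) : ℝ) ^ p * r ≤ A₂ * (33 * i) ^ p * (2 * Real.exp i) := by
        have : ((32 * i + 1 : ℕ) : ℝ) ^ p ≤ (33 * (i : ℝ)) ^ p := pow_le_pow_left₀ hm0.le hm p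
        gcongr
      have k2 := Real.log_le_log (by positivity) k1
      have k3 : Real.log (A₂ * (33 * i) ^ p * (2 * Real.exp i))
          = Real.log (A₂ * (33 * i) ^ p) + (Real.log 2 + i) := by
        rw [Real.log_mul (by positivity) (by positivity), Real.log_mul (by norm_num)
          (Real.exp_pos _).ne', Real.log_exp]
      rw [k3] at k2
      calc A₁ * Real.log (A₂ * ((32 * i + 1 : ℕ) : ℝ) ^ p * r) ≤ A₁ * (2 * i) := by
            refine mul_le_mul_of_nonneg_left ?_ h₁.le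
            linarith
        _ = 2 * A₁ * i := by ring
        _ ≤ K := hK1
    · set s : ℕ := 4 * i + 1 with hs
      have hs' : (s : ℝ) = 4 * i + 1 := by rw [hs]; push_cast; ring
      set b : ℕ := C * (K + 1 + i) with hb
      have hb0 : 0 < b := by positivity
      have hbr : (16 : ℝ) ^ 8 * 8 * Real.exp 2 * (K + 1) ≤ b := by
        rw [hb]
        push_cast
        have : (0 : ℝ) ≤ K := Nat.cast_nonneg K
        calc (16 : ℝ) ^ 8 * 8 * Real.exp 2 * (K + 1) ≤ C * (K + 1) := by gcongr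
          _ ≤ C * (K + 1 + i) := by gcongr; linarith
      set q : ℝ := Real.exp (-1) / 16 ^ 8 with hq
      have hq0 : 0 < q := by positivity
      have k1 : Real.exp 1 * ((K * (32 * i + 1) + 4 * i : ℕ) : ℝ) ≤ q * (s * b) := by
        have k2 : ((K * (32 * i + 1) + 4 * i : ℕ) : ℝ) ≤ (K + 1) * (8 * s) := by
          rw [hs']
          push_cast
          have : (0 : ℝ) ≤ K := Nat.cast_nonneg K
          nlinarith
        have k3 : Real.exp 1 = Real.exp (-1) * Real.exp 2 := by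
          rw [← Real.exp_add]; norm_num
        calc Real.exp 1 * ((K * (32 * i + 1) + 4 * i : ℕ) : ℝ)
            ≤ Real.exp 1 * ((K + 1) * (8 * s)) := by gcongr
          _ = q * s * ((16 : ℝ) ^ 8 * 8 * Real.exp 2 * (K + 1)) := by
              rw [k3, hq]
              field_simp
          _ ≤ q * s * b := by gcongr
          _ = q * (s * b) := by ring
      have k4 := choose_bd (K * (32 * i + 1) + 4 * i) s b hb0 (by omega) q k1
      have k5 : (16 : ℝ) ^ (32 * i + 1) ≤ ((16 : ℝ) ^ 8) ^ s := by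
        rw [← pow_mul]
        exact pow_le_pow_right₀ (by norm_num) (by omega)
      have k6 : (16 : ℝ) ^ (32 * i + 1) *
          (((K * (32 * i + 1) + 4 * i).choose s : ℝ) / (b : ℝ) ^ s) ≤ Real.exp (-(4 * i)) := by
        calc (16 : ℝ) ^ (32 * i + 1) *
              (((K * (32 * i + 1) + 4 * i).choose s : ℝ) / (b : ℝ) ^ s)
            ≤ ((16 : ℝ) ^ 8) ^ s * q ^ s := by gcongr
          _ = Real.exp (-1) ^ s := by
              rw [← mul_pow, hq]
              congr 1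
              field_simp
          _ = Real.exp (-s) := by
              rw [← Real.exp_nat_mul]
              congr 1
              ring
          _ ≤ Real.exp (-(4 * i)) := by
              apply Real.exp_le_exp.mpr
              rw [hs']
              linarith
      have k7 : A₃ * ((32 * i + 1 : ℕ) : ℝ) ^ p ≤ Real.exp (3 * i) / 2 := by
        have : ((32 * i + 1 : ℕ) : ℝ) ^ p ≤ (33 * (i : ℝ)) ^ p := pow_le_pow_left₀ hm0.le hm p
        have k8 : A₃ * ((32 * i + 1 : ℕ) : ℝ) ^ p ≤ A₃ * (33 * (i : ℝ)) ^ p := by gcongr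
        linarith
      calc (r : ℝ) * (16 ^ (32 * i + 1) *
            (((K * (32 * i + 1) + 4 * i).choose s : ℝ) / (b : ℝ) ^ s))
              * (A₃ * ((32 * i + 1 : ℕ) : ℝ) ^ p)
          ≤ (2 * Real.exp i) * Real.exp (-(4 * i)) * (Real.exp (3 * i) / 2) := by
            have k9 : (r : ℝ) * (16 ^ (32 * i + 1) *
                (((K * (32 * i + 1) + 4 * i).choose s : ℝ) / (b : ℝ) ^ s))
                ≤ (2 * Real.exp i) * Real.exp (-(4 * i)) :=
              mul_le_mul hr2 k6 (by positivity) (by positivity)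
            exact mul_le_mul k9 k7 (by positivity) (by positivity)
        _ = Real.exp i * Real.exp (-(4 * i)) * Real.exp (3 * i) := by ring
        _ = 1 := by
            rw [← Real.exp_add, ← Real.exp_add, Real.exp_eq_one_iff]
            ring

open Filter Asymptotics in
theorem ev_log (A₂ : ℝ) (h₂ : 0 < A₂) (p : ℕ) :
    ∀ᶠ y : ℝ in atTop, Real.log (A₂ * (33 * y) ^ p) + Real.log 2 ≤ y := by
  have h1 := Real.isLittleO_log_id_atTop.bound (show (0 : ℝ) < 1 / (2 * (p + 1)) by positivity)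
  filter_upwards [h1, eventually_ge_atTop (2 * (Real.log A₂ + p * Real.log 33 + Real.log 2)),
    eventually_gt_atTop (0 : ℝ)] with y h2 h3 h4
  have h5 := le_trans (Real.le_norm_self _) h2
  rw [id, Real.norm_of_nonneg h4.le] at h5
  rw [Real.log_mul h₂.ne' (by positivity), Real.log_pow, Real.log_mul (by norm_num) h4.ne']
  have hp : (0 : ℝ) ≤ p := Nat.cast_nonneg p
  have h6 : (p : ℝ) * Real.log y ≤ y / 2 := by
    calc (p : ℝ) * Real.log y ≤ p * (1 / (2 * (p + 1)) * y) := by gcongr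
      _ = p / (p + 1) * (y / 2) := by field_simp
      _ ≤ 1 * (y / 2) := by
          gcongr
          rw [div_le_one (by positivity)]
          linarith
      _ = y / 2 := one_mul _
  linarith

open Filter Asymptotics in
theorem ev_exp (A₃ : ℝ) (p : ℕ) :
    ∀ᶠ y : ℝ in atTop, 2 * A₃ * (33 * y) ^ p ≤ Real.exp (3 * y) := by
  have h1 := (isLittleO_pow_exp_pos_mul_atTop (k := p) (show (0 : ℝ) < 3 by norm_num)).bound
    (show (0 : ℝ) < 1 / (2 * (|A₃| + 1) * 33 ^ p) by positivity)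
  filter_upwards [h1, eventually_ge_atTop (0 : ℝ)] with y h2 h4
  rw [Real.norm_of_nonneg (by positivity), Real.norm_of_nonneg (Real.exp_pos _).le,
    div_mul_eq_mul_div, le_div_iff₀ (by positivity), one_mul] at h2
  refine le_trans ?_ h2
  rw [mul_pow]
  have h5 : A₃ ≤ |A₃| + 1 := by linarith [le_abs_self A₃]
  have h6 : 0 ≤ (33 : ℝ) ^ p * y ^ p := by positivity
  nlinarith [mul_le_mul_of_nonneg_right h5 h6]

open Filter Asymptotics in
theorem ev_sqrt (A₄ : ℝ) : ∀ᶠ y : ℝ in atTop, A₄ * Real.sqrt (33 * y) ≤ y := by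
  filter_upwards [eventually_ge_atTop (33 * A₄ ^ 2), eventually_ge_atTop (0 : ℝ)] with y h1 h2
  have h3 : Real.sqrt (33 * y) * Real.sqrt (33 * y) = 33 * y := Real.mul_self_sqrt (by positivity)
  have h4 := Real.sqrt_nonneg (33 * y)
  have h5 : 33 * A₄ ≤ Real.sqrt (33 * y) := by
    rcases le_total A₄ 0 with h | h
    · linarith
    · refine Real.le_sqrt_of_sq_le ?_
      nlinarith
  nlinarith [mul_le_mul_of_nonneg_right h5 h4]

end h74

open h74

open Filter in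
/-- the numbers of the log-free versions -/
theorem numbers_gen (A₁ A₂ A₃ A₄ A₅ : ℝ) (p : ℕ) (h₁ : 0 < A₁) (h₂ : 0 < A₂) (h₃ : 0 < A₃) :
    ∃ c > 0, ∃ n₀ : ℕ, ∀ n : ℕ, n₀ ≤ n → ∃ m b t i K : ℕ, Odd m ∧ 0 < b ∧ m * b ≤ n ∧
      4 * t ≤ m ∧ 4 * i ≤ t ∧ 8 * i + 2 ≤ m ∧ (m : ℝ) / (2 * i + 1) ≤ 16 ∧
      A₄ * Real.sqrt m ≤ b ∧ A₅ ≤ m ∧ ∀ r : ℕ, 0 < r →
        (r : ℝ) ≤ Real.exp (c * Real.sqrt n) + 1 →
        A₁ * Real.log (A₂ * (m : ℝ) ^ p * r) ≤ K ∧
        (r : ℝ) *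
          (16 ^ m * (((K * m + 4 * i).choose (t + 1 - 4 * i) : ℝ) / (b : ℝ) ^ (t + 1 - 4 * i)))
            * (A₃ * (m : ℝ) ^ p) ≤ 1 := by
  obtain ⟨C, hC⟩ := exists_nat_ge ((16 : ℝ) ^ 8 * 8 * Real.exp 2)
  have hC0 : (0 : ℝ) < C := lt_of_lt_of_le (by positivity) hC
  set C₅ : ℝ := 33 * C * (2 * A₁ + 3) with hC₅
  have hC₅0 : 0 < C₅ := by positivity
  set c : ℝ := 1 / (2 * Real.sqrt C₅) with hc
  have hs0 : 0 < Real.sqrt C₅ := Real.sqrt_pos.mpr hC₅0
  have hc0 : 0 < c := by positivity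
  refine ⟨c, hc0, ?_⟩
  have hev : ∀ᶠ y : ℝ in atTop, (Real.log (A₂ * (33 * y) ^ p) + Real.log 2 ≤ y) ∧
      (2 * A₃ * (33 * y) ^ p ≤ Real.exp (3 * y)) ∧ (A₄ * Real.sqrt (33 * y) ≤ y) ∧
      1 ≤ y ∧ A₅ ≤ y := by
    filter_upwards [ev_log A₂ h₂ p, ev_exp A₃ p, ev_sqrt A₄, eventually_ge_atTop 1,
      eventually_ge_atTop A₅] with y e1 e2 e3 e4 e5
    exact ⟨e1, e2, e3, e4, e5⟩
  -- i as a function of n
  have ht : Tendsto (fun n : ℕ => ((⌊Real.sqrt n / Real.sqrt C₅⌋₊ : ℕ) : ℝ)) atTop atTop := by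
    have t1 : Tendsto (fun n : ℕ => Real.sqrt n / Real.sqrt C₅) atTop atTop :=
      (Real.tendsto_sqrt_atTop.comp tendsto_natCast_atTop_atTop).atTop_div_const hs0
    exact tendsto_natCast_atTop_atTop.comp (tendsto_nat_floor_atTop.comp t1)
  obtain ⟨n₀, hn₀⟩ := eventually_atTop.mp (ht.eventually hev)
  refine ⟨n₀, fun n hn => ?_⟩
  obtain ⟨e1, e2, e3, e4, e5⟩ := hn₀ n hn
  set i : ℕ := ⌊Real.sqrt n / Real.sqrt C₅⌋₊ with hi
  have hi1 : 1 ≤ i := by exact_mod_cast e4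
  have hx0 : 0 ≤ Real.sqrt n / Real.sqrt C₅ := by positivity
  have hi2 : (i : ℝ) ≤ Real.sqrt n / Real.sqrt C₅ := Nat.floor_le hx0
  have hi3 : Real.sqrt n / Real.sqrt C₅ < i + 1 := Nat.lt_floor_add_one _
  obtain ⟨b, K, hb, hmb, hA₄, hr⟩ := num_core A₁ A₂ A₃ A₄ p h₁ h₂ h₃ C hC i hi1 e1 e2 e3
  refine ⟨32 * i + 1, b, 8 * i, i, K, ⟨16 * i, by ring⟩, hb, ?_, by omega, by omega, by omega,
    ?_, hA₄, ?_, fun r hr0 hrn => ?_⟩
  · have k1 : (((32 * i + 1) * b : ℕ) : ℝ) ≤ n := by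
      refine hmb.trans ?_
      have k2 : (i : ℝ) ^ 2 ≤ (Real.sqrt n / Real.sqrt C₅) ^ 2 :=
        pow_le_pow_left₀ (Nat.cast_nonneg i) hi2 2
      rw [div_pow, Real.sq_sqrt (Nat.cast_nonneg n), Real.sq_sqrt hC₅0.le,
        le_div_iff₀ hC₅0] at k2
      rw [← hC₅]
      linarith
    exact_mod_cast k1
  · rw [div_le_iff₀ (by positivity)]
    push_cast
    linarith
  · push_cast
    have : (0 : ℝ) ≤ i := Nat.cast_nonneg i
    linarith
  · have k1 : c * Real.sqrt n ≤ i := by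
      have k2 : c * Real.sqrt n = (Real.sqrt n / Real.sqrt C₅) / 2 := by
        rw [hc]
        field_simp
      rw [k2]
      linarith
    have k3 : (r : ℝ) ≤ 2 * Real.exp i := by
      have k4 : Real.exp (c * Real.sqrt n) ≤ Real.exp i := Real.exp_le_exp.mpr k1
      have k5 : 1 ≤ Real.exp (i : ℝ) := Real.one_le_exp (Nat.cast_nonneg i)
      linarith
    have k6 := hr r hr0 k3
    have k7 : 8 * i + 1 - 4 * i = 4 * i + 1 := by omega
    rw [k7]
    exact k6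

end SDX
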